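import Pool.Agent.H24.BZ.Targets
import Pool.Agent.H38.UG.UCT

/-!
UNIFORM LOCAL GAP FOR ALMOST ALL N (`MP_c59857_nt`), row VCT: the data.
-/

set_option autoImplicit false

open MeasureTheory ProbabilityTheory Filter Topology Finset
open scoped Nat ENNReal

namespace Pool.Agent.H38.BZ

open Pool.Agent.H24.BZ
open Pool.Agent.H24.UG (Om shM DD FL SN FC SC RS Cx Sgn sg3 Lb dn)
open Pool.Agent.H24.MR (lam)
open Pool.Agent.H24.T2 (Pset)
open Pool.Agent.H67.AG (avgP ul Inv κ₀)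
open Pool.Agent.H80.AG (sg)
open Pool.Agent.H66.AG (ul_le)
open Pool.Agent.H38.UG (ul_ge sgn_sg3 abs_sg3 shM_iter measYc nuYc cst)

/-- a limit along an ultrafilter of a sequence in `[0, 1]` -/
theorem ul_tendsto (U : Ultrafilter ℕ) (f : ℕ → ℝ) (h0 : ∀ n, 0 ≤ f n) (h1 : ∀ n, f n ≤ 1) :
    Tendsto f (U : Filter ℕ) (𝓝 (ul U f)) := by
  have hcp : IsCompact (Set.Icc (0 : ℝ) 1) := isCompact_Icc
  have hle : ((U.map f : Ultrafilter ℝ) : Filter ℝ) ≤ 𝓟 (Set.Icc (0 : ℝ) 1) := by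
    rw [le_principal_iff, Ultrafilter.mem_coe, Ultrafilter.mem_map]
    apply Filter.univ_mem'
    intro k
    exact ⟨h0 k, h1 k⟩
  obtain ⟨x, -, hx⟩ := hcp.ultrafilter_le_nhds _ hle
  have ht : Tendsto f (U : Filter ℕ) (𝓝 x) := hx
  have e : ul U f = x := ht.limUnder_eq
  rw [e]
  exact ht

/-- VCT -/
theorem pf_VCT : T_VCT := by
  classical
  intro Q k _ β c δ η m ν hQe hβ hδ hδ1 hη hηκ hν herg hmr hfc hsc hmi hfr
  have hQ0 : 0 < Q := Nat.pos_of_ne_zero (NeZero.ne Q)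
  have hQr : (0 : ℝ) < Q := by exact_mod_cast hQ0
  have hY := nuYc Q ν herg.toMeasurePreserving c
  -- the signs
  have hsgn : ∀ p : ℕ, ∃ a : Fin 3, p.Prime → p ≡ 1 [MOD Q] →
      ∀ᵐ ω ∂ν, (ω.2.2 0).2 p = a := by
    intro p
    by_cases h : p.Prime ∧ p ≡ 1 [MOD Q]
    · obtain ⟨a, ha⟩ := cst Q ν herg (fun l : Lb => l.2 p)
        ((measurable_pi_apply p).comp measurable_snd) (hsc p h.1 h.2)
      exact ⟨a, fun _ _ => ha⟩
    · exact ⟨0, fun h1 h2 => absurd ⟨h1, h2⟩ h⟩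
  choose a ha using hsgn
  let σ : ℕ → ℝ := fun p => if p.Prime ∧ p ≡ 1 [MOD Q] then sg3 (a p) else 0
  have hσ : ∀ p : ℕ, p.Prime → p ≡ 1 [MOD Q] → σ p = sg3 (a p) := fun p h1 h2 =>
    if_pos ⟨h1, h2⟩
  have hσv : Sgn σ := by
    intro p
    by_cases h : p.Prime ∧ p ≡ 1 [MOD Q]
    · rw [hσ p h.1 h.2]
      exact sgn_sg3 _
    · exact Or.inl (if_neg h)
  have hσ1 : ∀ p, |σ p| ≤ 1 := by
    intro p
    rcases hσv p with h | h | h <;> rw [h] <;> simp
  have hPs : ∀ w j p, p ∈ Pset (Q * w !) j → p.Prime ∧ p ≡ 1 [MOD Q] := by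
    intro w j p hp
    unfold Pset at hp
    rw [mem_filter] at hp
    exact ⟨hp.2.1, hp.2.2.of_mul_right _⟩
  -- densities
  have hSN : ∀ p : ℕ, p.Prime → p ≡ 1 [MOD Q] → ν.real (SN Q p) ≤ |σ p| := by
    intro p h1 h2
    rw [hσ p h1 h2, abs_sg3]
    by_cases h0 : a p = 0
    · rw [if_pos h0]
      have h3 : ν (SN Q p) = 0 := by
        have h4 := ha p h1 h2
        rw [h0, ae_iff] at h4
        exact h4
      rw [Measure.real, h3]
      simp
    · rw [if_neg h0]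
      exact measureReal_le_one
  let B : ℕ → Set (Om Q) := fun p => {x | x.2.1 = c} ∩
    {x | ∏ i, DD Q ((shM Q)^[p * β i] x) ≠ σ p}
  have hRS : ∀ p : ℕ, p.Prime → p ≡ 1 [MOD Q] → ∀ E : Set (Om Q), (∀ᵐ ω ∂ν, ω ∈ E) →
      |σ p| * ν.real (B p) ≤ ν.real (E ∩ RS Q β c p) := by
    intro p h1 h2 E hE
    by_cases h0 : a p = 0
    · rw [hσ p h1 h2, abs_sg3, if_pos h0, zero_mul]
      exact measureReal_nonneg
    · have h3 : |σ p| = 1 := by rw [hσ p h1 h2, abs_sg3, if_neg h0]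
      rw [h3, one_mul]
      refine ENNReal.toReal_mono (measure_ne_top _ _) (measure_mono_ae ?_)
      filter_upwards [hE, ha p h1 h2] with ω hω hω'
      rintro ⟨h4, h5⟩
      refine ⟨hω, ?_, h4, ?_⟩
      · rw [hω']
        exact h0
      · rw [hω', ← hσ p h1 h2]
        exact h5
  -- the ultrafilter of the w
  let G : ℕ → ℕ → Prop := fun w j => (Pset (Q * w !) j).Nonempty ∧
    δ / 4 * (Pset (Q * w !) j).card ≤ ∑ p ∈ Pset (Q * w !) j, |σ p| ∧
    ∑ p ∈ Pset (Q * w !) j, |σ p| * ν.real (B p) ≤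
      40 * η / Q * ∑ p ∈ Pset (Q * w !) j, |σ p|
  have hG : ∃ᶠ w in atTop, ∃ᶠ i in atTop, G w (m w i) := by
    refine hfr.mono fun w hw => hw.mono fun i hi => ?_
    obtain ⟨h1, h2⟩ := hi
    have hne := (hmi w i).2
    have hcard : (0 : ℝ) < (Pset (Q * w !) (m w i)).card := by
      exact_mod_cast card_pos.2 hne
    obtain ⟨b, hb⟩ := cst Q ν herg (fun l : Lb => l.1 (w, i))
      ((measurable_pi_apply (w, i)).comp measurable_fst) (hfc w i)
    have hbt : b = true := by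
      by_contra hb0
      have hb1 : b = false := by simpa using hb0
      have h3 : ν (FL Q w i) = 0 := by
        have h4 : ∀ᵐ ω ∂ν, ¬ ω ∈ FL Q w i := by
          filter_upwards [hb] with ω hω
          intro h5
          have h6 : (ω.2.2 0).1 (w, i) = true := h5
          rw [hω, hb1] at h6
          exact absurd h6 (by decide)
        rw [ae_iff] at h4
        simpa using h4
      have h5 : ∑ p ∈ Pset (Q * w !) (m w i), ν.real (FL Q w i ∩ SN Q p) = 0 := by
        refine sum_eq_zero fun p _ => ?_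
        have h6 : ν (FL Q w i ∩ SN Q p) = 0 :=
          measure_mono_null Set.inter_subset_left h3
        rw [Measure.real, h6]
        simp
      rw [h5] at h1
      have h7 : 0 < δ / 4 * ((Pset (Q * w !) (m w i)).card : ℝ) := by positivity
      linarith
    have hE : ∀ᵐ ω ∂ν, ω ∈ FL Q w i := by
      filter_upwards [hb] with ω hω
      change (ω.2.2 0).1 (w, i) = true
      rw [hω, hbt]
    have h8 : ∑ p ∈ Pset (Q * w !) (m w i), ν.real (FL Q w i ∩ SN Q p) ≤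
        ∑ p ∈ Pset (Q * w !) (m w i), |σ p| := sum_le_sum fun p hp => by
      obtain ⟨h3, h4⟩ := hPs _ _ _ hp
      exact (measureReal_mono Set.inter_subset_right).trans (hSN p h3 h4)
    refine ⟨hne, h1.trans h8, le_trans (sum_le_sum fun p hp => ?_)
      (h2.trans (mul_le_mul_of_nonneg_left h8 (by positivity)))⟩
    obtain ⟨h3, h4⟩ := hPs _ _ _ hp
    exact hRS p h3 h4 _ hE
  let S : Set ℕ := {w | ∃ᶠ i in (atTop : Filter ℕ), G w (m w i)}
  have hne : NeBot ((atTop : Filter ℕ) ⊓ 𝓟 S) := frequently_iff_neBot.1 hG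
  have hV1 : ((Ultrafilter.of ((atTop : Filter ℕ) ⊓ 𝓟 S) : Ultrafilter ℕ) : Filter ℕ) ≤ atTop :=
    (Ultrafilter.of_le _).trans inf_le_left
  have hV2 : ((Ultrafilter.of ((atTop : Filter ℕ) ⊓ 𝓟 S) : Ultrafilter ℕ) : Filter ℕ) ≤ 𝓟 S :=
    (Ultrafilter.of_le _).trans inf_le_right
  -- the ultrafilters of the scales
  have hU : ∀ w, ∃ U : Ultrafilter ℕ, (U : Filter ℕ) ≤ atTop ∧ (w ∈ S →
      ∀ᶠ j in (U : Filter ℕ), G w j) := by
    intro w
    by_cases hw : w ∈ S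
    · have ht : Tendsto (m w) atTop atTop := tendsto_atTop_mono (fun i => (hmi w i).1) tendsto_id
      have hf : ∃ᶠ j in (atTop : Filter ℕ), G w j := ht.frequently hw
      have hne' := frequently_iff_neBot.1 hf
      refine ⟨Ultrafilter.of ((atTop : Filter ℕ) ⊓ 𝓟 {j | G w j}),
        (Ultrafilter.of_le _).trans inf_le_left, fun _ => ?_⟩
      exact le_principal_iff.1 ((Ultrafilter.of_le _).trans inf_le_right)
    · exact ⟨hyperfilter ℕ, by rw [← Nat.cofinite_eq_atTop]; exact hyperfilter_le_cofinite,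
        fun h => absurd h hw⟩
  choose U hU1 hU2 using hU
  have hDm : Measurable (DD Q) := by
    have h1 : Measurable fun ω : Om Q => ω.1 0 := (measurable_pi_apply 0).comp measurable_fst
    exact (measurable_from_top (f := sg)).comp h1
  have hsg : ∀ b, sg b = 1 ∨ sg b = -1 := by
    intro b
    cases b <;> simp [sg]
  have hS : ∀ᶠ w in ((Ultrafilter.of ((atTop : Filter ℕ) ⊓ 𝓟 S) : Ultrafilter ℕ) : Filter ℕ),
      w ∈ S := le_principal_iff.1 hV2
  -- the densities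
  have hA0 : ∀ w j, 0 ≤ avgP (Q * w !) j fun p => |σ p| := by
    intro w j
    unfold avgP
    exact div_nonneg (sum_nonneg fun _ _ => abs_nonneg _) (Nat.cast_nonneg _)
  have hA1 : ∀ w j, (avgP (Q * w !) j fun p => |σ p|) ≤ 1 := by
    intro w j
    unfold avgP
    refine div_le_one_of_le₀ ?_ (Nat.cast_nonneg _)
    calc ∑ p ∈ Pset (Q * w !) j, |σ p| ≤ ∑ p ∈ Pset (Q * w !) j, (1 : ℝ) :=
          sum_le_sum fun p _ => hσ1 p
      _ = _ := by rw [sum_const, nsmul_eq_mul, mul_one]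
  have hg : ∀ w, Tendsto (fun j => avgP (Q * w !) j fun p => |σ p|) (U w : Filter ℕ)
      (𝓝 (dn (U w) (Q * w !) σ)) := fun w => ul_tendsto (U w) _ (hA0 w) (hA1 w)
  have hg0 : ∀ w, 0 ≤ dn (U w) (Q * w !) σ := fun w =>
    ge_of_tendsto (hg w) (Eventually.of_forall (hA0 w))
  have hg1 : ∀ w, dn (U w) (Q * w !) σ ≤ 1 := fun w =>
    le_of_tendsto (hg w) (Eventually.of_forall (hA1 w))
  have hgS : ∀ w ∈ S, δ / 4 ≤ dn (U w) (Q * w !) σ := by
    intro w hw
    refine ge_of_tendsto (hg w) ?_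
    filter_upwards [hU2 w hw] with j hj
    unfold avgP
    have hcard : (0 : ℝ) < (Pset (Q * w !) j).card := by exact_mod_cast card_pos.2 hj.1
    rw [le_div_iff₀ hcard]
    exact hj.2.1
  let V : Ultrafilter ℕ := Ultrafilter.of ((atTop : Filter ℕ) ⊓ 𝓟 S)
  let gs : ℝ := ul V fun w => dn (U w) (Q * w !) σ
  have hgs : Tendsto (fun w => dn (U w) (Q * w !) σ) (V : Filter ℕ) (𝓝 gs) :=
    ul_tendsto V _ hg0 hg1
  have hgs0 : δ / 4 ≤ gs := ge_of_tendsto hgs (by
    filter_upwards [hS] with w hw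
    exact hgS w hw)
  have hgs1 : gs ≤ 1 := le_of_tendsto hgs (Eventually.of_forall hg1)
  have hgp : 0 < gs := lt_of_lt_of_le (by positivity) hgs0
  refine ⟨{
    X := Om Q
    μ := ν
    T := shM Q
    erg := herg
    D := DD Q
    Dm := hDm
    Dv := fun x => hsg _
    mr := hmr
    k := k + 1
    kpos := Nat.succ_pos k
    Q := Q
    Qpos := hQ0
    Qev := hQe
    β := β
    inj := hβ
    σ := σ
    σv := hσv
    γ := 9 / 10 * gs
    γ0 := by positivity
    γ1 := by linarith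
    Y := {x | x.2.1 = c}
    Ym := measYc Q c
    Yinv := ?_
    Ypos := by rw [hY]; positivity
    V := V
    hV := hV1
    U := U
    hU := hU1
    gam := ?_
    rel := ?_ }⟩
  · ext x
    rw [Set.mem_preimage, Set.mem_ofPred_eq, Set.mem_ofPred_eq, shM_iter, ZMod.natCast_self,
      add_zero]
  · exact (hgs.eventually (lt_mem_nhds (show 9 / 10 * gs < gs by linarith))).mono
      fun w hw => hw.le
  · have hup := hgs.eventually (gt_mem_nhds (show gs < 10 / 9 * gs by linarith))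
    filter_upwards [hS, hup] with w hw hw2
    have hB0 : ∀ j, 0 ≤ avgP (Q * w !) j fun p => |σ p| * ν.real ({x : Om Q | x.2.1 = c} ∩
        {x | ∏ i, DD Q ((shM Q)^[p * β i] x) ≠ σ p}) := by
      intro j
      unfold avgP
      exact div_nonneg (sum_nonneg fun _ _ => mul_nonneg (abs_nonneg _) measureReal_nonneg)
        (Nat.cast_nonneg _)
    have hB1 : ∀ j, (avgP (Q * w !) j fun p => |σ p| * ν.real ({x : Om Q | x.2.1 = c} ∩
        {x | ∏ i, DD Q ((shM Q)^[p * β i] x) ≠ σ p})) ≤ 1 := by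
      intro j
      unfold avgP
      refine div_le_one_of_le₀ ?_ (Nat.cast_nonneg _)
      calc ∑ p ∈ Pset (Q * w !) j, |σ p| * ν.real ({x : Om Q | x.2.1 = c} ∩
            {x | ∏ i, DD Q ((shM Q)^[p * β i] x) ≠ σ p})
          ≤ ∑ p ∈ Pset (Q * w !) j, (1 : ℝ) :=
            sum_le_sum fun p _ => mul_le_one₀ (hσ1 p) measureReal_nonneg measureReal_le_one
        _ = _ := by rw [sum_const, nsmul_eq_mul, mul_one]
    have hBt := ul_tendsto (U w) _ hB0 hB1
    have h1 : ul (U w) (fun j => avgP (Q * w !) j fun p => |σ p| *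
        ν.real ({x : Om Q | x.2.1 = c} ∩ {x | ∏ i, DD Q ((shM Q)^[p * β i] x) ≠ σ p})) ≤
        40 * η / Q * dn (U w) (Q * w !) σ := by
      refine le_of_tendsto_of_tendsto hBt ((hg w).const_mul (40 * η / Q)) ?_
      filter_upwards [hU2 w hw] with j hj
      unfold avgP
      rw [← mul_div_assoc]
      exact div_le_div_of_nonneg_right hj.2.2 (Nat.cast_nonneg _)
    refine h1.trans ?_
    rw [hY]
    have h2 : 40 * η / Q * dn (U w) (Q * w !) σ ≤ 40 * η / Q * (10 / 9 * gs) :=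
      mul_le_mul_of_nonneg_left hw2.le (by positivity)
    refine h2.trans ?_
    have e1 : 40 * η / Q * (10 / 9 * gs) = (400 / 9 * η * gs) * (1 / (Q : ℝ)) := by ring
    rw [e1]
    refine mul_le_mul_of_nonneg_right ?_ (by positivity)
    have hκ : (0 : ℝ) ≤ κ₀ := by unfold κ₀; norm_num
    have h3 : δ ^ 2 / 16 ≤ gs ^ 2 := by
      have := pow_le_pow_left₀ (by positivity : (0 : ℝ) ≤ δ / 4) hgs0 2
      linarith [this, (by ring : (δ / 4) ^ 2 = δ ^ 2 / 16)]
    have h4 : κ₀ * (δ ^ 2 / 16) ≤ κ₀ * gs ^ 2 := mul_le_mul_of_nonneg_left h3 hκ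
    have h5 : 400 / 9 * η ≤ κ₀ * (9 / 10) ^ 3 * gs ^ 2 := by nlinarith
    calc 400 / 9 * η * gs ≤ κ₀ * (9 / 10) ^ 3 * gs ^ 2 * gs :=
          mul_le_mul_of_nonneg_right h5 hgp.le
      _ = κ₀ * (9 / 10 * gs) ^ 3 := by ring

end Pool.Agent.H38.BZ
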